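import Pool.Agent.FrontSel98.Main

/-!
# MP_ef8f21_an, Q1: the answer is negative

The system `v_t = v_xx + 3v(1-v)(6v-1)`, `w_t = w_xx + w(1 - w³ + 4v(1-v))` has linear spreading speed
`c_lin = 2`, `η_lin = 1`, and the explicit front `u_tr = (1/(1+e^{3ξ}), (1+e^{3ξ})^{-1/3})` satisfies
all the conditions 1-5 that define a pushed-to-pulled transition front, with `a = 1`, `b = 0`. The
component `v` pins the position of the front: if a solution stays within `1/50` of translates of
`u_tr`, at positions `2t + h(t)`, then `h` is bounded. So `u_tr` is not selected with position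
corrections `-(1/(2η_lin)) log t + O(1)`.
-/

open MeasureTheory Filter Topology Set

namespace Pool.Agent.Results.MP_ef8f21_an.PinnedTransitionFront

open Pool.Agent.FrontSel98

theorem result :
    (exSys.IsTransitionFront 2 1 exFront ∧
      ∀ (u₀ : ℝ → RV 2) (v : ℝ → ℝ → RV 2) (h : ℝ → ℝ), exSys.IsSol u₀ v →
        (∀ᶠ t in atTop, ∀ x, ‖v t (x + 2 * t + h t) - exFront x‖ ≤ 1 / 50) →
        ∃ C, ∀ᶠ t in atTop, |h t| ≤ C) ∧
    ¬ ∀ (N m : ℕ) (S : Sys N m) (c η : ℝ) (u : ℝ → RV N),
      S.IsTransitionFront c η u → S.Selected c u (LogShift η) :=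
  ⟨⟨exFront_transition, fun _ _ _ hv hc => no_drift hv hc⟩,
    fun H => exFront_not_selected (H 2 1 exSys 2 1 exFront exFront_transition)⟩

end Pool.Agent.Results.MP_ef8f21_an.PinnedTransitionFront
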